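import Pool.Agent.H92.EQ.TK2

/-!
# Row KP2 of the board eqd_modules
-/

set_option autoImplicit false

namespace Pool.Agent.H62.EQ

open Pool.Agent.H92.EQ
open scoped BigOperators ComplexConjugate ContDiff ComplexOrder
open MeasureTheory

theorem kp_ev_zero {N : ℕ} (F : Fin N → MvPolynomial (Fin N) ℂ) (z : Fin N → ℂ) :
    ev (iter F 0) z = z := by
  funext i
  show MvPolynomial.eval z (MvPolynomial.X i) = z i
  exact MvPolynomial.eval_X i

theorem kp_jac_zero {N : ℕ} (F : Fin N → MvPolynomial (Fin N) ℂ) (z : Fin N → ℂ)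
    (i a : Fin N) : jac (iter F 0) z i a = if i = a then 1 else 0 := by
  show MvPolynomial.eval z (MvPolynomial.pderiv a (MvPolynomial.X i)) = _
  rw [MvPolynomial.pderiv_X]
  by_cases h : i = a
  · subst h; simp
  · rw [Pi.single_apply, if_neg h, if_neg h, map_zero]

theorem kp_prod {N p : ℕ} (I I' : Fin p → Fin N) :
    (∏ l, (if I' l = I l then (1 : ℂ) else 0)) = if I' = I then 1 else 0 := by
  by_cases h : I' = I
  · subst h; simp
  · rw [if_neg h]
    have : ∃ l, I' l ≠ I l := by
      by_contra hc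
      push Not at hc
      exact h (funext hc)
    obtain ⟨l, hl⟩ := this
    exact Finset.prod_eq_zero (Finset.mem_univ l) (if_neg hl)

theorem Sn_zero {N p : ℕ} (F : Fin N → MvPolynomial (Fin N) ℂ) (d : ℕ) (S : Form (Fin N) p) :
    Sn F d 0 S = S := by
  funext z I J
  show ((d : ℂ) ^ (p * 0))⁻¹ * pull (iter F 0) S z I J = S z I J
  rw [Nat.mul_zero, pow_zero, inv_one, one_mul]
  unfold pull
  rw [kp_ev_zero]
  simp only [kp_jac_zero]
  have h2 : ∀ I' : Fin p → Fin N, ∀ J' : Fin p → Fin N,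
      S z I' J' * (∏ l, (if I' l = I l then (1 : ℂ) else 0)) *
        ∏ l, conj (if J' l = J l then (1 : ℂ) else 0) =
      if J' = J then (if I' = I then S z I' J' else 0) else 0 := by
    intro I' J'
    have h3 : (∏ l, conj (if J' l = J l then (1 : ℂ) else 0)) =
        ∏ l, (if J' l = J l then (1 : ℂ) else 0) := by
      apply Finset.prod_congr rfl
      intro l _
      split_ifs <;> simp
    rw [h3, kp_prod, kp_prod]
    split_ifs <;> simp
  simp only [h2]
  rw [Finset.sum_eq_single I]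
  · rw [Finset.sum_eq_single J]
    · simp
    · intro b _ hb; rw [if_neg hb]
    · intro h; exact absurd (Finset.mem_univ _) h
  · intro b _ hb
    apply Finset.sum_eq_zero
    intro J' _
    split_ifs <;> rfl
  · intro h; exact absurd (Finset.mem_univ _) h

theorem Sn_om_zero {N : ℕ} (F : Fin N → MvPolynomial (Fin N) ℂ) (d n : ℕ) :
    Sn F d n (om N 0) = om N 0 := by
  funext z I J
  show ((d : ℂ) ^ (0 * n))⁻¹ * pull (iter F n) (om N 0) z I J = om N 0 z I J
  rw [Nat.zero_mul, pow_zero, inv_one, one_mul]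
  unfold pull
  simp [om]

theorem pair_const_mul {N p q : ℕ} (c : ℝ) (φ : (Fin N → ℂ) → ℝ) (S : Form (Fin N) p)
    (u : Fin q → (Fin N → ℂ) → ℝ) : pair (fun z => c * φ z) S u = c * pair φ S u := by
  unfold pair Iint
  rw [← integral_const_mul]
  congr 1
  funext z
  ring

theorem pf_KP2 (hKA : T_KA) (hKH : T_KH) (hP5 : T_P5) (hP7 : T_P7) (hD7 : T_D7)
    (hD12 : T_D12) (hL3 : T_L3) (hL6 : T_L6) : T_KP2 := by
  intro N d p q F φ u hd hN hF hφ hu
  have hd1 : 1 ≤ d := by omega
  have hdR : (2 : ℝ) ≤ d := by exact_mod_cast hd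
  have hell : Pot (ell : (Fin N → ℂ) → ℝ) := (hL3 N).1
  obtain ⟨hG, -, B, hB0, -, hB⟩ := hKA N d F hd hF
  obtain ⟨c, hc0, hc⟩ := (hL6 N).2.2 φ hφ
  have hφe : φ = fun z => c * ((ell z + φ z / c) - ell z) := by
    funext z
    field_simp
    ring
  have main : ∀ p q : ℕ, p + q + 1 = N → ∃ C : ℝ, ∀ u : Fin q → (Fin N → ℂ) → ℝ,
      (∀ j, Pot (u j)) → ∀ l n, l ≤ n →
      |pair φ (Sn F d n (om N p)) u - pair φ (Sn F d l (om N p)) u| ≤ C / (d : ℝ) ^ l := by
    intro p
    induction p with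
    | zero =>
      intro q _
      refine ⟨0, fun u _ l n _ => ?_⟩
      rw [Sn_om_zero, Sn_om_zero, sub_self, abs_zero, zero_div]
    | succ p ih =>
      intro q hq
      obtain ⟨C, hC⟩ := ih (q + 1) (by omega)
      refine ⟨C + c * (2 * B * mass (q + 1) (om N p)), fun u hu l n hln => ?_⟩
      have hom : ProjForm (om N p) := (hD7 N p).1
      have habs : ∀ m : ℕ, pair φ (Sn F d m (om N (p + 1))) u =
          pair φ (Sn F d m (om N p)) (Fin.cons (α := fun _ => (Fin N → ℂ) → ℝ)
            (Gn F d m) u) := by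
        intro m
        have h := (hKH N d p q m 0 F (om N p) ell φ u hd (by omega) hF hom hell hu hφ).2.2
        rw [Sn_zero, Nat.zero_add] at h
        exact h.symm
      rw [habs n, habs l]
      have hSn : ProjForm (Sn F d n (om N p)) := (hD12 N d F hd1 hF 0 n).2.2.2.2 p _ hom
      have hcons : ∀ j, Pot ((Fin.cons (α := fun _ => (Fin N → ℂ) → ℝ) (Gn F d l) u :
          Fin (q + 1) → (Fin N → ℂ) → ℝ) j) := by
        intro j
        refine Fin.cases ?_ (fun k => ?_) j
        · exact hG l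
        · exact hu k
      have h7 := hP7 N p (q + 1) (Sn F d n (om N p))
        (Fin.cons (α := fun _ => (Fin N → ℂ) → ℝ) (Gn F d l) u) 0 (Gn F d n) (Gn F d l)
        (fun z => ell z + φ z / c) ell (B / (d : ℝ) ^ l) (by omega) hSn hcons (hG n) (hG l)
        hc hell (fun z hz => hB l n z hln hz)
      rw [Fin.update_cons_zero, Fin.update_cons_zero] at h7
      rw [(hP5 N p (q + 1) d (om N p) (by omega) hom).2.1 F n hd1 hF] at h7
      have h8 : |pair φ (Sn F d n (om N p)) (Fin.cons (α := fun _ => (Fin N → ℂ) → ℝ)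
            (Gn F d n) u) - pair φ (Sn F d n (om N p))
            (Fin.cons (α := fun _ => (Fin N → ℂ) → ℝ) (Gn F d l) u)| ≤
          c * (2 * B * mass (q + 1) (om N p)) / (d : ℝ) ^ l := by
        rw [hφe, pair_const_mul, pair_const_mul, ← mul_sub, abs_mul, abs_of_pos hc0]
        refine (mul_le_mul_of_nonneg_left h7 hc0.le).trans (le_of_eq ?_)
        ring
      have h9 := hC (Fin.cons (α := fun _ => (Fin N → ℂ) → ℝ) (Gn F d l) u) hcons l n hln
      have h10 := abs_sub_le (pair φ (Sn F d n (om N p))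
          (Fin.cons (α := fun _ => (Fin N → ℂ) → ℝ) (Gn F d n) u))
        (pair φ (Sn F d n (om N p)) (Fin.cons (α := fun _ => (Fin N → ℂ) → ℝ) (Gn F d l) u))
        (pair φ (Sn F d l (om N p)) (Fin.cons (α := fun _ => (Fin N → ℂ) → ℝ) (Gn F d l) u))
      rw [add_div]
      linarith
  obtain ⟨C, hC⟩ := main p q hN
  exact ⟨C, fun l n hln => hC u hu l n hln⟩

end Pool.Agent.H62.EQ
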