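import Pool.Agent.H71.EQ.Targets

/-! Row CTP: tuples of nonzero residues with sum zero. -/

set_option autoImplicit false
open scoped Classical

namespace Pool.Agent.H71.EQ

namespace H62

/-- all entries nonzero, sum zero -/
def SA (m p : ℕ) : Set (Fin m → ZMod p) := {v | (∀ i, v i ≠ 0) ∧ ∑ i, v i = 0}

/-- all entries nonzero, sum not zero -/
def SB (m p : ℕ) : Set (Fin m → ZMod p) := {v | (∀ i, v i ≠ 0) ∧ ∑ i, v i ≠ 0}

lemma card_all (m p : ℕ) (hp : p.Prime) :
    (({v : Fin m → ZMod p | ∀ i, v i ≠ 0}).ncard : ℝ) = ((p : ℝ) - 1) ^ m := by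
  haveI : Fact p.Prime := ⟨hp⟩
  have h1 : ({v : Fin m → ZMod p | ∀ i, v i ≠ 0}) =
      ((Fintype.piFinset (fun _ : Fin m => (Finset.univ : Finset (ZMod p)).erase 0) :
        Finset (Fin m → ZMod p)) : Set (Fin m → ZMod p)) := by
    ext v
    simp [Fintype.mem_piFinset]
  rw [h1, Set.ncard_coe_finset, Fintype.card_piFinset]
  simp only [Finset.card_erase_of_mem (Finset.mem_univ _), Finset.card_univ, ZMod.card,
    Finset.prod_const, Fintype.card_fin]
  have h2 : 1 ≤ p := hp.one_lt.le
  push_cast [Nat.cast_sub h2]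
  rfl

lemma sum_AB (m p : ℕ) (hp : p.Prime) :
    ((SA m p).ncard : ℝ) + ((SB m p).ncard : ℝ) = ((p : ℝ) - 1) ^ m := by
  haveI : Fact p.Prime := ⟨hp⟩
  rw [← card_all m p hp]
  have h1 : ({v : Fin m → ZMod p | ∀ i, v i ≠ 0}) = SA m p ∪ SB m p := by
    ext v
    simp only [Set.mem_setOf_eq, Set.mem_union, SA, SB]
    tauto
  have h2 : Disjoint (SA m p) (SB m p) := by
    rw [Set.disjoint_left]
    intro v h3 h4
    exact h4.2 h3.2
  rw [h1, Set.ncard_union_eq h2 (Set.toFinite _) (Set.toFinite _)]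
  push_cast
  rfl

lemma succ_AB (m p : ℕ) : (SA (m + 1) p).ncard = (SB m p).ncard := by
  have h1 : SA (m + 1) p =
      (fun w : Fin m → ZMod p => (Fin.cons (-∑ i, w i) w : Fin (m + 1) → ZMod p)) '' SB m p := by
    ext v
    simp only [SA, SB, Set.mem_setOf_eq, Set.mem_image]
    constructor
    · rintro ⟨h2, h3⟩
      rw [Fin.sum_univ_succ] at h3
      have h4 : v 0 = -∑ i : Fin m, v i.succ := by
        rw [eq_neg_iff_add_eq_zero]
        exact h3
      refine ⟨fun i => v i.succ, ⟨fun i => h2 _, fun h5 => ?_⟩, ?_⟩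
      · rw [h5, neg_zero] at h4
        exact h2 0 h4
      · funext j
        refine Fin.cases ?_ (fun i => ?_) j
        · rw [Fin.cons_zero, h4]
        · rw [Fin.cons_succ]
    · rintro ⟨w, ⟨h2, h3⟩, rfl⟩
      refine ⟨fun j => ?_, ?_⟩
      · refine Fin.cases ?_ (fun i => ?_) j
        · rw [Fin.cons_zero]
          exact neg_ne_zero.2 h3
        · rw [Fin.cons_succ]
          exact h2 i
      · rw [Fin.sum_univ_succ, Fin.cons_zero]
        simp only [Fin.cons_succ]
        ring
  rw [h1]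
  apply Set.ncard_image_of_injective
  intro w w' h
  funext i
  have := congrFun h i.succ
  simpa using this

lemma card_A (m p : ℕ) (hp : p.Prime) : ((SA m p).ncard : ℝ) = cnt m p := by
  have hp0 : (p : ℝ) ≠ 0 := by exact_mod_cast hp.ne_zero
  induction m with
  | zero =>
    have : SA 0 p = Set.univ := by
      ext v
      simp [SA]
    rw [this, Set.ncard_univ]
    simp only [Nat.card_unique, Nat.cast_one, cnt, pow_zero, one_mul]
    field_simp
    ring
  | succ m ih =>
    rw [succ_AB]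
    have h := sum_AB m p hp
    rw [ih] at h
    have h2 : ((SB m p).ncard : ℝ) = ((p : ℝ) - 1) ^ m - cnt m p := by linarith
    rw [h2]
    unfold cnt
    field_simp
    ring

lemma card_B (m p : ℕ) (hp : p.Prime) : ((SB m p).ncard : ℝ) = cnt (m + 1) p := by
  rw [← succ_AB]
  exact card_A _ _ hp

end H62

theorem pf_CTP : T_CTP := by
  intro k p hk hp
  refine ⟨H62.card_B k p hp, fun i => ?_, H62.card_A k p hp⟩
  obtain ⟨m, rfl⟩ : ∃ m, k = m + 1 := ⟨k - 1, by omega⟩
  rw [← H62.card_B m p hp]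
  have h1 : {v : Fin (m + 1) → ZMod p | v i = 0 ∧ (∀ j, j ≠ i → v j ≠ 0) ∧ ∑ j, v j ≠ 0} =
      (fun w : Fin m → ZMod p => (i.insertNth 0 w : Fin (m + 1) → ZMod p)) '' H62.SB m p := by
    ext v
    simp only [H62.SB, Set.mem_setOf_eq, Set.mem_image]
    constructor
    · rintro ⟨h2, h3, h4⟩
      rw [Fin.sum_univ_succAbove _ i, h2, zero_add] at h4
      refine ⟨fun j => v (i.succAbove j), ⟨fun j => h3 _ (Fin.succAbove_ne i j), h4⟩, ?_⟩
      funext j
      rcases eq_or_ne j i with rfl | hj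
      · rw [Fin.insertNth_apply_same, h2]
      · obtain ⟨l, rfl⟩ := Fin.exists_succAbove_eq hj
        rw [Fin.insertNth_apply_succAbove]
    · rintro ⟨w, ⟨h2, h3⟩, rfl⟩
      refine ⟨Fin.insertNth_apply_same _ _ _, fun j hj => ?_, ?_⟩
      · obtain ⟨l, rfl⟩ := Fin.exists_succAbove_eq hj
        rw [Fin.insertNth_apply_succAbove]
        exact h2 l
      · rw [Fin.sum_univ_succAbove _ i, Fin.insertNth_apply_same, zero_add]
        simp only [Fin.insertNth_apply_succAbove]
        exact h3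
  rw [h1]
  congr 1
  apply Set.ncard_image_of_injective
  intro w w' h
  funext j
  have := congrFun h (i.succAbove j)
  simpa [Fin.insertNth_apply_succAbove] using this

end Pool.Agent.H71.EQ
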