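import Pool.Agent.H92.EQ.TK2

/-!
# Rows KG2 and KP2 of the board eqd_modules
-/

set_option autoImplicit false

namespace Pool.Agent.H62.EQ

open Pool.Agent.H92.EQ
open scoped BigOperators ComplexConjugate ContDiff ComplexOrder
open MeasureTheory

theorem ev_iter_zero' {N : ℕ} (F : Fin N → MvPolynomial (Fin N) ℂ) (z : Fin N → ℂ) :
    ev (iter F 0) z = z := by
  funext i
  show MvPolynomial.eval z (MvPolynomial.X i) = z i
  exact MvPolynomial.eval_X i

theorem ev_iter_succ' {N : ℕ} (F : Fin N → MvPolynomial (Fin N) ℂ) (n : ℕ) (z : Fin N → ℂ) :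
    ev (iter F (n + 1)) z = ev F (ev (iter F n) z) := by
  funext i
  show MvPolynomial.eval z (MvPolynomial.bind₁ (iter F n) (F i)) =
    MvPolynomial.eval (fun j => MvPolynomial.eval z (iter F n j)) (F i)
  rw [← MvPolynomial.coe_aeval_eq_eval, ← MvPolynomial.coe_aeval_eq_eval]
  simp only [RingHom.coe_coe]
  rw [MvPolynomial.aeval_bind₁]

theorem pf_KG2 (hD12 : T_D12) : T_KG2 := by
  intro N d p i F K S H hd hF hK
  refine ⟨?_, ?_, ?_⟩
  · intro z hz hzK I J
    show wedge (S z) (H z) I J = 0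
    unfold wedge
    have : ∀ a b : Fin (p + 1), (-1 : ℂ) ^ ((a : ℕ) + (b : ℕ)) *
        S z (I ∘ a.succAbove) (J ∘ b.succAbove) * H z (I a) (J b) = 0 := by
      intro a b
      rw [hK z hz hzK]
      ring
    simp only [this, Finset.sum_const_zero, mul_zero]
  · intro z hz hzK I J
    have hne : ev (iter F i) z ≠ 0 := fun h => hz ((hD12 N d F hd hF 0 i).1.nd z h)
    show ((d : ℂ) ^ (p * i))⁻¹ * pull (iter F i) S z I J = 0
    unfold pull
    have : ∀ I' J' : Fin p → Fin N, S (ev (iter F i) z) I' J' = 0 := fun I' J' =>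
      hK _ hne hzK I' J'
    simp only [this, zero_mul, Finset.sum_const_zero, mul_zero]
  · intro 𝒦 hst hKm
    induction i generalizing K S with
    | zero =>
      have : ev (iter F 0) ⁻¹' K = K := by
        ext z
        rw [Set.mem_preimage, ev_iter_zero']
      rw [this]; exact hKm
    | succ i ih =>
      have h1 : ev (iter F (i + 1)) ⁻¹' K = ev (iter F i) ⁻¹' (ev F ⁻¹' K) := by
        ext z
        rw [Set.mem_preimage, ev_iter_succ', Set.mem_preimage, Set.mem_preimage]
      rw [h1]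
      refine ih (ev F ⁻¹' K) (fun _ _ _ => 0) (fun _ _ _ _ _ => rfl) (hst K hKm)

end Pool.Agent.H62.EQ
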